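import Pool.Agent.helper52.T1.SpecS

set_option autoImplicit false

/-!
# Row t1:UZC (MP_07c750_an): covering
-/

open scoped MatrixGroups ContDiff Topology UpperHalfPlane ComplexConjugate
open UpperHalfPlane MeasureTheory Filter Set

namespace Pool.Agent.T1

open Pool.Agent.RS Pool.Agent.MS Pool.Agent.HV
open Pool.Agent.EN (XG MG mkX mkM fl pr)

noncomputable section

/-- exponential near `1` -/
theorem UZC_exp {t δ : ℝ} (hδ : 0 ≤ δ) (hδ1 : δ ≤ 1) (h : |t| ≤ δ) : |Real.exp (t / 2) - 1| ≤ δ := by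
  have h1 : |t / 2| ≤ 1 := by
    rw [abs_div, abs_of_pos (by norm_num : (0 : ℝ) < 2)]
    linarith
  have h2 := Real.abs_exp_sub_one_le h1
  have h3 : 2 * |t / 2| = |t| := by
    rw [abs_div, abs_of_pos (by norm_num : (0 : ℝ) < 2)]
    ring
  rw [h3] at h2
  exact h2.trans h

/-- the entries of the product -/
theorem UZC_box (b K N0 s ξ t : ℝ) (k1 : SL(2, ℝ)) (hb : 0 < b) (hb1 : b ≤ 1 / 200) (hK : 1 ≤ K) (hKN : K ≤ N0) (hN : 10 ≤ N0) (hs : |s| ≤ 4 / N0) (hξ : |ξ| ≤ b / 500)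
    (ht : |t| ≤ b / 50) (hk : bq b b (b * (K / N0)) k1) : bq (2 * b) (2 * b) (2 * b * (2 * (K + 10 / b) / N0)) (k1 * lM s * nM ξ * aM t) := by
  obtain ⟨h00, h11, h01, h10⟩ := hk
  obtain ⟨A, hA⟩ : ∃ A, A = k1.1 0 0 := ⟨_, rfl⟩
  obtain ⟨B, hB⟩ : ∃ B, B = k1.1 0 1 := ⟨_, rfl⟩
  obtain ⟨C, hC⟩ : ∃ C, C = k1.1 1 0 := ⟨_, rfl⟩
  obtain ⟨D, hD⟩ : ∃ D, D = k1.1 1 1 := ⟨_, rfl⟩
  rw [← hA] at h00
  rw [← hB] at h01
  rw [← hC] at h10
  rw [← hD] at h11
  have hN0 : 0 < N0 := by linarith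
  have e00 : (k1 * lM s * nM ξ * aM t).1 0 0 = (A + B * s) * Real.exp (t / 2) := by
    rw [hA, hB]
    simp [lM, nM, aM, Matrix.SpecialLinearGroup.coe_mul, Matrix.mul_apply, Fin.sum_univ_two]
  have e01 : (k1 * lM s * nM ξ * aM t).1 0 1 = ((A + B * s) * ξ + B) * Real.exp (-(t / 2)) := by
    rw [hA, hB]
    simp [lM, nM, aM, Matrix.SpecialLinearGroup.coe_mul, Matrix.mul_apply, Fin.sum_univ_two]
  have e10 : (k1 * lM s * nM ξ * aM t).1 1 0 = (C + D * s) * Real.exp (t / 2) := by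
    rw [hC, hD]
    simp [lM, nM, aM, Matrix.SpecialLinearGroup.coe_mul, Matrix.mul_apply, Fin.sum_univ_two]
  have e11 : (k1 * lM s * nM ξ * aM t).1 1 1 = ((C + D * s) * ξ + D) * Real.exp (-(t / 2)) := by
    rw [hC, hD]
    simp [lM, nM, aM, Matrix.SpecialLinearGroup.coe_mul, Matrix.mul_apply, Fin.sum_univ_two]
  obtain ⟨E, hE⟩ : ∃ E, E = Real.exp (t / 2) := ⟨_, rfl⟩
  obtain ⟨F, hF⟩ : ∃ F, F = Real.exp (-(t / 2)) := ⟨_, rfl⟩
  have hE1 : |E - 1| ≤ b / 50 := by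
    rw [hE]
    exact UZC_exp (by linarith) (by linarith) ht
  have hF1 : |F - 1| ≤ b / 50 := by
    rw [hF, ← neg_div]
    exact UZC_exp (by linarith) (by linarith) (by rwa [abs_neg])
  have hs1 : |s| ≤ 4 / 10 := by
    refine hs.trans ?_
    exact div_le_div_of_nonneg_left (by norm_num) (by norm_num) hN
  have hKN1 : K / N0 ≤ 1 := by
    rw [div_le_one hN0]
    exact hKN
  rw [← hE] at e00 e10
  rw [← hF] at e01 e11
  unfold bq
  rw [e00, e01, e10, e11]
  have a1 := abs_le.1 h00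
  have a2 := abs_le.1 h11
  have a3 := abs_le.1 h01
  have a5 := abs_le.1 hE1
  have a6 := abs_le.1 hF1
  have a7 := abs_le.1 hs1
  have a8 := abs_le.1 hξ
  -- `B s`
  have hBs : |B * s| ≤ b * (4 / 10) := by
    rw [abs_mul]
    exact mul_le_mul h01 hs1 (abs_nonneg _) hb.le
  have a9 := abs_le.1 hBs
  -- `C + D s`
  have hDs : |D * s| ≤ (1 + b) * (4 / N0) := by
    rw [abs_mul]
    refine mul_le_mul ?_ hs (abs_nonneg _) (by linarith)
    rw [abs_le]
    constructor <;> linarith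
  have hCDs : |C + D * s| ≤ b * (K / N0) + (1 + b) * (4 / N0) := (abs_add_le _ _).trans (add_le_add h10 hDs)
  have h4N : 4 / N0 ≤ 4 / 10 := div_le_div_of_nonneg_left (by norm_num) (by norm_num) hN
  have hCDs1 : |C + D * s| ≤ 1 := by
    refine hCDs.trans ?_
    have : b * (K / N0) ≤ b * 1 := mul_le_mul_of_nonneg_left hKN1 hb.le
    have h5 : (1 + b) * (4 / N0) ≤ (1 + b) * (4 / 10) := mul_le_mul_of_nonneg_left h4N (by linarith)
    linarith
  refine ⟨?_, ?_, ?_, ?_⟩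
  · have e1 : (A + B * s) * E - 1 = (A + B * s - 1) * E + (E - 1) := by ring
    rw [e1]
    have e2 : |A + B * s - 1| ≤ b * (14 / 10) := by
      rw [abs_le]
      constructor <;> linarith
    have e3 : |E| ≤ 101 / 100 := by
      rw [abs_le]
      constructor <;> linarith
    calc |(A + B * s - 1) * E + (E - 1)| ≤ |A + B * s - 1| * |E| + |E - 1| := by
          rw [← abs_mul]
          exact abs_add_le _ _
      _ ≤ b * (14 / 10) * (101 / 100) + b / 50 := add_le_add (mul_le_mul e2 e3 (abs_nonneg _) (by positivity)) hE1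
      _ ≤ 2 * b := by linarith
  · have e1 : ((C + D * s) * ξ + D) * F - 1 = ((C + D * s) * ξ + (D - 1)) * F + (F - 1) := by ring
    rw [e1]
    have e0 : |(C + D * s) * ξ| ≤ 1 * (b / 500) := by
      rw [abs_mul]
      exact mul_le_mul hCDs1 hξ (abs_nonneg _) (by norm_num)
    have e2 : |(C + D * s) * ξ + (D - 1)| ≤ b * (11 / 10) := by
      refine (abs_add_le _ _).trans ?_
      linarith
    have e3 : |F| ≤ 101 / 100 := by
      rw [abs_le]
      constructor <;> linarith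
    calc |((C + D * s) * ξ + (D - 1)) * F + (F - 1)| ≤ |(C + D * s) * ξ + (D - 1)| * |F| + |F - 1| := by
          rw [← abs_mul]
          exact abs_add_le _ _
      _ ≤ b * (11 / 10) * (101 / 100) + b / 50 := add_le_add (mul_le_mul e2 e3 (abs_nonneg _) (by positivity)) hF1
      _ ≤ 2 * b := by linarith
  · rw [abs_mul]
    have e0 : |(A + B * s) * ξ| ≤ 2 * (b / 500) := by
      rw [abs_mul]
      refine mul_le_mul ?_ hξ (abs_nonneg _) (by norm_num)
      rw [abs_le]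
      constructor <;> linarith
    have e2 : |(A + B * s) * ξ + B| ≤ b * (11 / 10) := by
      refine (abs_add_le _ _).trans ?_
      linarith
    have e3 : |F| ≤ 101 / 100 := by
      rw [abs_le]
      constructor <;> linarith
    calc |(A + B * s) * ξ + B| * |F| ≤ b * (11 / 10) * (101 / 100) := mul_le_mul e2 e3 (abs_nonneg _) (by positivity)
      _ ≤ 2 * b := by linarith
  · rw [abs_mul]
    have e3 : |E| ≤ 101 / 100 := by
      rw [abs_le]
      constructor <;> linarith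
    have e4 : b * (K / N0) + (1 + b) * (4 / N0) = (b * K + 4 * (1 + b)) / N0 := by
      field_simp
    have e5 : 2 * b * (2 * (K + 10 / b) / N0) = (4 * b * K + 40) / N0 := by
      field_simp
      ring
    rw [e4] at hCDs
    rw [e5]
    calc |C + D * s| * |E| ≤ (b * K + 4 * (1 + b)) / N0 * (101 / 100) := mul_le_mul hCDs e3 (abs_nonneg _) (by positivity)
      _ = (101 / 100 * (b * K + 4 * (1 + b))) / N0 := by ring
      _ ≤ (4 * b * K + 40) / N0 := by
          apply div_le_div_of_nonneg_right _ hN0.le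
          nlinarith

/-- ancestors -/
theorem UZC_anc (N0 k i c : ℕ) (hN : 1 ≤ N0) (hi : i < k) (v' : ℝ) (h1 : ((c / N0 ^ (k - 1 - i) : ℕ) : ℝ) ≤ v' * N0 ^ (i + 1)) (h2 : v' * N0 ^ (i + 1) < ((c / N0 ^ (k - 1 - i) : ℕ) : ℝ) + 1) :
    |(N0 : ℝ) ^ i * (4 * ((c : ℝ) / ((N0 ^ k : ℕ) : ℝ) - v'))| ≤ 4 / N0 := by
  obtain ⟨D, hD⟩ : ∃ D : ℕ, D = N0 ^ (k - 1 - i) := ⟨_, rfl⟩
  rw [← hD] at h1 h2
  have hN0 : (0 : ℝ) < N0 := by exact_mod_cast hN
  have hD0 : 0 < D := by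
    rw [hD]
    exact pow_pos (by omega) _
  have hD0' : (0 : ℝ) < D := by exact_mod_cast hD0
  have hk : N0 ^ k = D * N0 ^ (i + 1) := by
    rw [hD, ← pow_add]
    congr 1
    omega
  have hc1 : ((c / D : ℕ) : ℝ) * D ≤ c := by exact_mod_cast Nat.div_mul_le_self c D
  have hc2 : (c : ℝ) < (((c / D : ℕ) : ℝ) + 1) * D := by
    have : c < (c / D + 1) * D := by
      have e1 := Nat.div_add_mod c D
      have e2 := Nat.mod_lt c hD0
      nlinarith
    exact_mod_cast this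
  have hv : (c : ℝ) / ((N0 ^ k : ℕ) : ℝ) * (N0 : ℝ) ^ (i + 1) = c / D := by
    rw [hk]
    push_cast
    field_simp
  have hc3 : ((c / D : ℕ) : ℝ) ≤ (c : ℝ) / D := by
    rw [le_div_iff₀ hD0']
    exact hc1
  have hc4 : (c : ℝ) / D < ((c / D : ℕ) : ℝ) + 1 := by
    rw [div_lt_iff₀ hD0']
    exact hc2
  have h5 : |((c : ℝ) / ((N0 ^ k : ℕ) : ℝ) - v') * (N0 : ℝ) ^ (i + 1)| ≤ 1 := by
    rw [sub_mul, hv, abs_le]
    constructor <;> linarith
  have h6 : (N0 : ℝ) ^ i * (4 * ((c : ℝ) / ((N0 ^ k : ℕ) : ℝ) - v')) = 4 / N0 * (((c : ℝ) / ((N0 ^ k : ℕ) : ℝ) - v') * (N0 : ℝ) ^ (i + 1)) := by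
    rw [pow_succ]
    field_simp
  rw [h6, abs_mul, abs_of_pos (by positivity : (0 : ℝ) < 4 / N0)]
  calc 4 / (N0 : ℝ) * |((c : ℝ) / ((N0 ^ k : ℕ) : ℝ) - v') * (N0 : ℝ) ^ (i + 1)| ≤ 4 / N0 * 1 := mul_le_mul_of_nonneg_left h5 (by positivity)
    _ = 4 / N0 := mul_one _

/-- the reference points -/
theorem UZC_ref (d X a e N : ℝ) (hN : 0 < N) (hd : |d - 1| ≤ 1 / 100000) (hX : |X| ≤ 1 / 100000) (ha : |a| ≤ 2) (he : |e| ≤ 2) (hae : |a - e| ≤ 1 / N) :
    |a / (d ^ 2 * (1 - 4 * X * a)) - e / (d ^ 2 * (1 - 4 * X * e))| ≤ 8 / N := by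
  have h1 := abs_le.1 hd
  have hXa : |X * a| ≤ 1 / 100000 * 2 := by
    rw [abs_mul]
    exact mul_le_mul hX ha (abs_nonneg _) (by norm_num)
  have hXe : |X * e| ≤ 1 / 100000 * 2 := by
    rw [abs_mul]
    exact mul_le_mul hX he (abs_nonneg _) (by norm_num)
  have h2 := abs_le.1 hXa
  have h3 := abs_le.1 hXe
  have h4 : 9 / 10 ≤ d := by linarith
  have h5 : 9 / 10 ≤ 1 - 4 * X * a := by linarith
  have h6 : 9 / 10 ≤ 1 - 4 * X * e := by linarith
  have h7 : 0 < d := by linarith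
  have h8 : a / (d ^ 2 * (1 - 4 * X * a)) - e / (d ^ 2 * (1 - 4 * X * e)) = (a - e) * (1 / (d ^ 2 * (1 - 4 * X * a) * (1 - 4 * X * e))) := by
    have g1 : (1 - 4 * X * a) ≠ 0 := by linarith
    have g2 : (1 - 4 * X * e) ≠ 0 := by linarith
    have g3 : d ≠ 0 := h7.ne'
    have g4 : d ^ 2 * (1 - 4 * X * a) ≠ 0 := mul_ne_zero (pow_ne_zero _ g3) g1
    have g5 : d ^ 2 * (1 - 4 * X * e) ≠ 0 := mul_ne_zero (pow_ne_zero _ g3) g2
    rw [div_sub_div _ _ g4 g5, mul_one_div, div_eq_div_iff (mul_ne_zero g4 g5) (mul_ne_zero g4 g2)]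
    ring
  have h9 : 1 / 8 ≤ d ^ 2 * (1 - 4 * X * a) * (1 - 4 * X * e) := by
    have e1 : 81 / 100 ≤ d ^ 2 := by nlinarith
    have e2 : 81 / 100 * (9 / 10) ≤ d ^ 2 * (1 - 4 * X * a) := mul_le_mul e1 h5 (by norm_num) (by positivity)
    have e3 : 81 / 100 * (9 / 10) * (9 / 10) ≤ d ^ 2 * (1 - 4 * X * a) * (1 - 4 * X * e) := mul_le_mul e2 h6 (by norm_num) (by linarith)
    linarith
  rw [h8, abs_mul, abs_of_pos (by positivity : 0 < 1 / (d ^ 2 * (1 - 4 * X * a) * (1 - 4 * X * e)))]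
  calc |a - e| * (1 / (d ^ 2 * (1 - 4 * X * a) * (1 - 4 * X * e))) ≤ 1 / N * 8 := by
        apply mul_le_mul hae _ (by positivity) (by positivity)
        rw [div_le_iff₀ (by linarith)]
        linarith
    _ = 8 / N := by ring

/-- **Row UZC.** -/
theorem UZC_proof (hMOB : MOB_stmt) (hGLC : GLC_stmt) : UZC_stmt := by
  classical
  intro Γ b K w τ x N0 k A W W2 p h z γ hb hb1 hK hKN hN hW hW2 hw hτ hx hγ c hc
  obtain ⟨-, -, -, -, -, -, -, -, -, -, haa, hnn, hll, -, -, -, -, hna, hla, -⟩ := hGLC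
  have ha0 : aM 0 = 1 := by
    have := haa 0 0
    rw [add_zero] at this
    exact (mul_eq_left.1 this.symm)
  have hn0 : nM 0 = 1 := by
    have := hnn 0 0
    rw [add_zero] at this
    exact (mul_eq_left.1 this.symm)
  unfold YC at hc
  rw [Finset.mem_filter, Finset.mem_range] at hc
  obtain ⟨hcN, hcp⟩ := hc
  have hN1 : 1 ≤ N0 := by omega
  have hNk : 0 < N0 ^ k := pow_pos (by omega) _
  have hNr : (0 : ℝ) < ((N0 ^ k : ℕ) : ℝ) := by exact_mod_cast hNk
  obtain ⟨N, hNdef⟩ : ∃ N : ℝ, N = ((N0 ^ k : ℕ) : ℝ) := ⟨_, rfl⟩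
  obtain ⟨v, hv⟩ : ∃ v : ℝ, v = (c : ℝ) / ((N0 ^ k : ℕ) : ℝ) := ⟨_, rfl⟩
  have hv0 : 0 ≤ v := by
    rw [hv]
    positivity
  have hv1 : v ≤ 1 := by
    rw [hv, div_le_one hNr]
    exact_mod_cast hcN.le
  obtain ⟨hd, hXX, u, τ', x', hu1, hu2, hτ', hx', hmat, hV⟩ := hMOB (b / 1000) w τ x (4 * v) (by positivity) (by linarith) hw hτ hx (by linarith) (by linarith)
  rw [← hNdef] at hNr ⊢
  have hfl1 : (⌊u / 4 * N⌋ : ℝ) ≤ u / 4 * N := Int.floor_le _
  have hfl2 : u / 4 * N < (⌊u / 4 * N⌋ : ℝ) + 1 := Int.lt_floor_add_one _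
  have hNk' : (N0 : ℝ) ^ k = N := by
    rw [hNdef]
    push_cast
    rfl
  refine ⟨⌊u / 4 * N⌋, ?_, ?_⟩
  · unfold Uz
    rw [Finset.mem_filter, Finset.mem_Ico]
    refine ⟨⟨?_, ?_⟩, u / 4, ?_, ?_, ?_⟩
    · rw [Int.le_floor]
      have : ((-((N0 ^ k : ℕ) : ℤ) : ℤ) : ℝ) = -N := by
        rw [hNdef]
        push_cast
        rfl
      rw [this]
      nlinarith
    · rw [Int.floor_lt]
      have : ((2 * ((N0 ^ k : ℕ) : ℤ) : ℤ) : ℝ) = 2 * N := by
        rw [hNdef]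
        push_cast
        rfl
      rw [this]
      nlinarith
    · rw [hNk']
      exact hfl1
    · rw [hNk']
      exact hfl2
    · intro i hi hpi
      obtain ⟨v', hv'1, hv'2, hv'W⟩ := hcp i hi hpi
      obtain ⟨y, hy, γ1, hbq⟩ := hW hv'W
      have hs := UZC_anc N0 k i c hN1 hi v' hv'1 hv'2
      rw [← hv] at hs
      obtain ⟨t, ht⟩ : ∃ t : ℝ, t = i * Real.log N0 := ⟨_, rfl⟩
      rw [← ht] at hbq ⊢
      have hexp : Real.exp t = (N0 : ℝ) ^ i := by
        rw [ht, mul_comm, Real.exp_mul, Real.exp_log (by exact_mod_cast hN1), Real.rpow_natCast]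
      have hexp1 : Real.exp (-t) ≤ 1 := by
        rw [Real.exp_le_one_iff, ht]
        have : 0 ≤ Real.log N0 := Real.log_nonneg (by exact_mod_cast hN1)
        have : 0 ≤ (i : ℝ) * Real.log N0 := by positivity
        linarith
      rw [hW2]
      refine ⟨y, hy, γ1 * γ⁻¹, ?_⟩
      -- the matrix identity
      have hid : z * lM (4 * (u / 4)) * aM t = (γ : SL(2, ℝ)) * (h * lM (4 * v') * aM t) * lM (Real.exp t * (4 * (v - v'))) * nM (Real.exp (-t) * -x') * aM (-τ') := by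
        have g1 : lM u = lM w * aM τ * nM x * lM (4 * v) * nM (-x') * aM (-τ') := by
          rw [hmat]
          have e1 : nM x' * nM (-x') = 1 := by rw [← hnn, add_neg_cancel, hn0]
          have e2 : aM τ' * aM (-τ') = 1 := by rw [← haa, add_neg_cancel, ha0]
          calc lM u = lM u * (aM τ' * aM (-τ')) := by rw [e2, mul_one]
            _ = lM u * aM τ' * (nM x' * nM (-x')) * aM (-τ') := by rw [e1, mul_one, mul_assoc]
            _ = lM u * aM τ' * nM x' * nM (-x') * aM (-τ') := by simp only [mul_assoc]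
        have g2 : aM (-τ') * aM t = aM t * aM (-τ') := by rw [← haa, ← haa, add_comm]
        have g3 : lM (4 * v) = lM (4 * v') * lM (4 * (v - v')) := by
          rw [← hll]
          congr 1
          ring
        calc z * lM (4 * (u / 4)) * aM t = z * lM u * aM t := by
              congr 3
              ring
          _ = z * (lM w * aM τ * nM x * lM (4 * v) * nM (-x') * aM (-τ')) * aM t := by rw [g1]
          _ = (z * lM w * aM τ * nM x) * lM (4 * v) * nM (-x') * (aM (-τ') * aM t) := by simp only [mul_assoc]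
          _ = ((γ : SL(2, ℝ)) * h) * (lM (4 * v') * lM (4 * (v - v'))) * nM (-x') * (aM t * aM (-τ')) := by rw [g2, ← hγ, g3]
          _ = (γ : SL(2, ℝ)) * h * lM (4 * v') * lM (4 * (v - v')) * (nM (-x') * aM t) * aM (-τ') := by simp only [mul_assoc]
          _ = (γ : SL(2, ℝ)) * h * lM (4 * v') * lM (4 * (v - v')) * (aM t * nM (Real.exp (-t) * -x')) * aM (-τ') := by rw [hna]
          _ = (γ : SL(2, ℝ)) * h * lM (4 * v') * (lM (4 * (v - v')) * aM t) * nM (Real.exp (-t) * -x') * aM (-τ') := by simp only [mul_assoc]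
          _ = (γ : SL(2, ℝ)) * h * lM (4 * v') * (aM t * lM (Real.exp t * (4 * (v - v')))) * nM (Real.exp (-t) * -x') * aM (-τ') := by rw [hla]
          _ = (γ : SL(2, ℝ)) * (h * lM (4 * v') * aM t) * lM (Real.exp t * (4 * (v - v'))) * nM (Real.exp (-t) * -x') * aM (-τ') := by simp only [mul_assoc]
      have hid2 : y⁻¹ * ((γ1 * γ⁻¹ : Γ) : SL(2, ℝ)) * (z * lM (4 * (u / 4)) * aM t) =
          (y⁻¹ * (γ1 : SL(2, ℝ)) * (h * lM (4 * v') * aM t)) * lM (Real.exp t * (4 * (v - v'))) * nM (Real.exp (-t) * -x') * aM (-τ') := by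
        rw [hid, Subgroup.coe_mul, Subgroup.coe_inv]
        simp only [mul_assoc, inv_mul_cancel_left]
      rw [hid2]
      apply UZC_box b K N0 _ _ _ _ hb hb1 hK (by exact_mod_cast hKN) (by exact_mod_cast hN)
      · rw [hexp]
        exact hs
      · rw [abs_mul, abs_neg, abs_of_pos (Real.exp_pos _)]
        calc Real.exp (-t) * |x'| ≤ 1 * (2 * (b / 1000)) := mul_le_mul hexp1 hx' (abs_nonneg _) (by norm_num)
          _ = b / 500 := by ring
      · rw [abs_neg]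
        calc |τ'| ≤ 20 * (b / 1000) := hτ'
          _ = b / 50 := by ring
      · exact hbq
  · have hvk : (c : ℝ) / N - vk (N0 ^ k) w τ x ⌊u / 4 * N⌋ = (u / 4) / (dX w τ x ^ 2 * (1 - 4 * XX w τ x * (u / 4))) -
        ((⌊u / 4 * N⌋ : ℝ) / N) / (dX w τ x ^ 2 * (1 - 4 * XX w τ x * ((⌊u / 4 * N⌋ : ℝ) / N))) := by
      unfold vk
      rw [← hNdef]
      have e1 : (c : ℝ) / N = v := by rw [hv, hNdef]
      rw [e1]
      have e2 : v = -(w * Real.exp (τ / 2) / dX w τ x) / 4 + (u / 4) / (dX w τ x ^ 2 * (1 - 4 * XX w τ x * (u / 4))) := by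
        have e3 : 4 * XX w τ x * (u / 4) = XX w τ x * u := by ring
        rw [e3]
        have e4 : (u / 4) / (dX w τ x ^ 2 * (1 - XX w τ x * u)) = (u / (dX w τ x ^ 2 * (1 - XX w τ x * u))) / 4 := by ring
        rw [e4]
        linarith
      rw [e2]
      ring
    rw [hvk]
    have hfN : |u / 4 - (⌊u / 4 * N⌋ : ℝ) / N| ≤ 1 / N := by
      have e1 : u / 4 - (⌊u / 4 * N⌋ : ℝ) / N = (u / 4 * N - (⌊u / 4 * N⌋ : ℝ)) / N := by
        field_simp
      rw [e1, abs_div, abs_of_pos hNr]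
      apply div_le_div_of_nonneg_right _ hNr.le
      rw [abs_le]
      constructor <;> linarith
    have hN1' : (1 : ℝ) ≤ N := by
      rw [hNdef]
      exact_mod_cast hNk
    have h1N : 1 / N ≤ 1 := by
      rw [div_le_one hNr]
      exact hN1'
    have hfN' := abs_le.1 hfN
    apply UZC_ref _ _ _ _ _ hNr
    · exact hd.trans (by linarith)
    · exact hXX.trans (by linarith)
    · rw [abs_le]
      constructor <;> linarith
    · have hq : (⌊u / 4 * N⌋ : ℝ) / N ≤ u / 4 := by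
        rw [div_le_iff₀ hNr]
        exact hfl1
      rw [abs_le]
      constructor <;> linarith
    · exact hfN

end

end Pool.Agent.T1
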